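import Pool.Agent.W_c81d44_h88.KPoly

/-!
# Faithful circuit covers for bounded weights reduce to the weights 1 and 2
-/

set_option autoImplicit false

namespace Pool.Agent.Results.MP_c81d44_lc.BoundedWeights

open Turing Pool.Agent.W_c81d44_h82 Pool.Agent.W_c81d44_h88

/-- For every `K` the faithful circuit cover problem for bridgeless graphs with eulerian weights in
`{1, …, K}` reduces in polynomial time to the one for the weights `1` and `2`. -/
theorem result :
    Function.Injective codeK ∧ Function.Injective code ∧
    ∀ K : ℕ, ∃ f : KG → WG ℕ, Nonempty (TM2ComputableInPolyTime codeK code f) ∧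
      ∀ G : KG, (∀ e ∈ G, 1 ≤ e.2 ∧ e.2 ≤ K) → (KG.shape G).Bridgeless → KG.Eulerian G →
        (f G).Bridgeless ∧ (f G).Eulerian ∧ ((f G).HasFCC ↔ KG.HasFC G) :=
  ⟨codeK_injective, code_injective, bounded_reduction⟩

end Pool.Agent.Results.MP_c81d44_lc.BoundedWeights
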