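import Pool.Agent.W_c81d44_h88.Final

/-!
# Every Boolean circuit is a projection of FCC(1,2)
-/

set_option autoImplicit false

namespace Pool.Agent.Results.MP_c81d44_lc.CircuitProjection

open Pool.Agent.W_c81d44_h82 Pool.Agent.W_c81d44_h88

/-- For every NAND circuit `gs` with `n` inputs and every wire `o` of it there are
`8 n + 149 s + 33` edges (`s` the number of gates), each of which is fixed or depends on a single
input bit, such that for every input `x` the graph formed by these edges is bridgeless, its weight
is eulerian, and it has a faithful circuit cover iff the wire `o` has the value true. -/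
theorem result (n : ℕ) (gs : List (ℕ × ℕ)) (o : ℕ) (hW : WFC gs n) (ho : o < n + gs.length) :
    ∃ T : List ((ℕ → Bool) → (ℕ × ℕ) × Bool),
      T.length = 8 * n + 149 * gs.length + 33 ∧
      (∀ t ∈ T, (∀ x y, t x = t y) ∨ ∃ i < n, ∀ x y : ℕ → Bool, x i = y i → t x = t y) ∧
      ∀ x : ℕ → Bool, WG.Bridgeless (T.map (fun t => t x)) ∧ WG.Eulerian (T.map (fun t => t x)) ∧
        (WG.HasFCC (T.map (fun t => t x)) ↔ evalC gs n x o = true) :=
  projection n gs o hW ho

end Pool.Agent.Results.MP_c81d44_lc.CircuitProjection
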