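import Pool.Agent.W_c81d44_h82.CubMain

/-!
# FCC(1,2) reduces to cubic graphs whose edges of weight 2 form a perfect matching
-/

set_option autoImplicit false

namespace Pool.Agent.Results.MP_c81d44_lc.CubicReduction

open Turing Pool.Agent.W_c81d44_h82

/-- A polynomial-time many-one reduction of FCC(1,2) to its restriction to cubic graphs in which
the edges of weight `2` form a perfect matching (and those of weight `1` a 2-factor). -/
theorem result :
    Function.Injective code ∧
    ∃ f : WG ℕ → WG ℕ, Nonempty (TM2ComputableInPolyTime code code f) ∧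
      ∀ G : WG ℕ, G.Bridgeless → G.Eulerian →
        (f G).Bridgeless ∧ (f G).Eulerian ∧ CubicPM (f G) ∧ ((f G).HasFCC ↔ G.HasFCC) :=
  ⟨code_injective, cubic_reduction⟩

end Pool.Agent.Results.MP_c81d44_lc.CubicReduction
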