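import Pool.Agent.W_c81d44_h82.CubMain
import Pool.Agent.W_c81d44_h88.KEx

/-!
# Faithful circuit covers for (1,2)-weights: NP-hard, or the strong cycle double cover conjecture
-/

set_option autoImplicit false

namespace Pool.Agent.Results.MP_c81d44_lc.ExchangeDichotomy

open Pool.Agent.W_c81d44_h82 Pool.Agent.W_c81d44_h88

/-- Either FCC(1,2) is NP-hard, even for bridgeless cubic graphs in which the edges of weight `2`
form a perfect matching, or the exchange property holds for all weights, and then also the strong
cycle double cover conjecture. -/
theorem result :
    Function.Injective code ∧ (FCCHardCubic ∨ (Exchange ∧ ExchangeW ∧ StrongCDC)) :=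
  ⟨code_injective, main_cubic.imp id fun h => ⟨h.1, exchangeW h.1, h.2⟩⟩

end Pool.Agent.Results.MP_c81d44_lc.ExchangeDichotomy
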